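import Pool.Agent.Helper87.MX.Fr

/-! W1: confinement -/

set_option autoImplicit false

namespace Pool.Agent.Helper3.MX

open Pool.Agent.Helper87.MX

theorem fourier_add_left (n : ℤ) (y s : Tor) :
    (fourier n (y + s) : ℂ) = fourier n y * fourier n s := by
  rw [fourier_apply, fourier_apply, fourier_apply, smul_add, AddCircle.toCircle_add,
    Circle.coe_mul]

theorem exists_lift (d : Tor) : ∃ t : ℝ, (t : Tor) = d ∧ |t| = ‖d‖ := by
  obtain ⟨t, rfl⟩ := QuotientAddGroup.mk_surjective d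
  refine ⟨t - round t, ?_, ?_⟩
  · rw [AddCircle.coe_sub, sub_eq_self]
    have : ((round t : ℝ) : AddCircle (1 : ℝ)) = ((round t • (1 : ℝ) : ℝ) : AddCircle (1 : ℝ)) := by
      simp
    rw [this, AddCircle.coe_zsmul, AddCircle.coe_period, smul_zero]
  · have := AddCircle.norm_eq (p := (1 : ℝ)) (x := t)
    rw [inv_one, one_mul, mul_one] at this
    exact this.symm

/-- **W1.** -/
theorem s_W1 : S_W1 := by
  intro η k j c F hk hc hη hπ hwin x y hx hy hxy
  obtain ⟨t, ht, htn⟩ := exists_lift (x - y)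
  have hk0 : (0 : ℝ) < k := by exact_mod_cast hk
  have hu0 : (0 : ℝ) < (4 : ℝ) ^ j := by positivity
  have hc0 : 0 < ‖c‖ := norm_pos_iff.2 hc
  have hFc : (0 : ℝ) < F.card := by exact_mod_cast hwin.1.card_pos
  rw [← htn] at hxy ⊢
  have hxyt : x = y + (t : Tor) := by
    rw [ht]
    abel
  set z : ℝ := k * 4 ^ j * t with hz
  have hzt : |z| = k * 4 ^ j * |t| := by
    rw [hz, abs_mul, abs_of_pos (by positivity)]
  have hz2 : |z| ≤ 1 / 2 := by
    rw [hzt]
    calc (k : ℝ) * 4 ^ j * |t| ≤ k * 4 ^ j * (1 / (2 * k * 4 ^ j)) :=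
          mul_le_mul_of_nonneg_left hxy (by positivity)
      _ = 1 / 2 := by field_simp
  set θ : ℂ := Complex.exp (Complex.I * ((2 * Real.pi * z : ℝ) : ℂ)) with hθ
  have hθn : ‖θ‖ = 1 := by
    rw [hθ, mul_comm, Complex.norm_exp_ofReal_mul_I]
  have hterm : ∀ p ∈ F, ‖(fourier ((k * su p : ℕ) : ℤ) x : ℂ) -
      θ * fourier ((k * su p : ℕ) : ℤ) y‖ ≤ ‖c‖ / 8 := by
    intro p hp
    obtain ⟨hp1, hp2⟩ := hwin.2 p hp
    rw [hxyt, fourier_add_left, mul_comm θ, ← mul_sub, norm_mul]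
    have h1 : ‖(fourier ((k * su p : ℕ) : ℤ) y : ℂ)‖ = 1 := by
      rw [fourier_apply]
      exact Circle.norm_coe _
    rw [h1, one_mul]
    have h2 : (fourier ((k * su p : ℕ) : ℤ) (t : Tor) : ℂ) =
        θ * Complex.exp (Complex.I * ((2 * Real.pi * (k * (su p - 4 ^ j) * t) : ℝ) : ℂ)) := by
      rw [fourier_coe_apply, hθ, ← Complex.exp_add]
      congr 1
      rw [hz]
      push_cast
      ring
    have h3 : θ * Complex.exp (Complex.I * ((2 * Real.pi * (k * (su p - 4 ^ j) * t) : ℝ) : ℂ)) - θ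
        = θ * (Complex.exp (Complex.I *
          ((2 * Real.pi * (k * (su p - 4 ^ j) * t) : ℝ) : ℂ)) - 1) := by ring
    rw [h2, h3, norm_mul, hθn, one_mul]
    refine (Real.norm_exp_I_mul_ofReal_sub_one_le).trans ?_
    have h4 : (0 : ℝ) ≤ su p - 4 ^ j := sub_nonneg.2 hp1
    rw [Real.norm_eq_abs, abs_mul, abs_mul, abs_mul, abs_of_pos Real.pi_pos,
      abs_of_pos (by norm_num : (0 : ℝ) < 2), abs_of_nonneg (by positivity)]
    have h5 : (su p : ℝ) - 4 ^ j ≤ (Real.exp η - 1) * 4 ^ j := by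
      have := hp2.le
      linarith
    calc 2 * Real.pi * (k * (su p - 4 ^ j) * |t|)
        ≤ 2 * Real.pi * (k * ((Real.exp η - 1) * 4 ^ j) * (1 / (2 * k * 4 ^ j))) := by
          have hex : 0 ≤ Real.exp η - 1 := by
            have := Real.add_one_le_exp η
            linarith
          gcongr
      _ = Real.pi * (Real.exp η - 1) := by field_simp
      _ ≤ ‖c‖ / 8 := hπ
  have hav : ‖wav k F x - θ * wav k F y‖ ≤ ‖c‖ / 8 := by
    have h1 : wav k F x - θ * wav k F y =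
        (∑ p ∈ F, ((fourier ((k * su p : ℕ) : ℤ) x : ℂ) -
          θ * fourier ((k * su p : ℕ) : ℤ) y)) / F.card := by
      unfold wav
      rw [Finset.sum_sub_distrib, ← Finset.mul_sum, sub_div, mul_div_assoc]
    rw [h1, norm_div, Complex.norm_natCast, div_le_iff₀ hFc]
    calc ‖∑ p ∈ F, ((fourier ((k * su p : ℕ) : ℤ) x : ℂ) -
          θ * fourier ((k * su p : ℕ) : ℤ) y)‖
        ≤ ∑ p ∈ F, ‖(fourier ((k * su p : ℕ) : ℤ) x : ℂ) -
          θ * fourier ((k * su p : ℕ) : ℤ) y‖ := norm_sum_le _ _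
      _ ≤ ∑ _p ∈ F, ‖c‖ / 8 := Finset.sum_le_sum hterm
      _ = ‖c‖ / 8 * F.card := by rw [Finset.sum_const, nsmul_eq_mul, mul_comm]
  have h7 : ‖θ - 1‖ * ‖wav k F y‖ < 3 * ‖c‖ / 8 := by
    rw [← norm_mul]
    have h1 : (θ - 1) * wav k F y = -(wav k F x - θ * wav k F y) + (wav k F x - c) -
        (wav k F y - c) := by ring
    rw [h1]
    calc ‖-(wav k F x - θ * wav k F y) + (wav k F x - c) - (wav k F y - c)‖
        ≤ ‖-(wav k F x - θ * wav k F y) + (wav k F x - c)‖ + ‖wav k F y - c‖ := norm_sub_le _ _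
      _ ≤ ‖-(wav k F x - θ * wav k F y)‖ + ‖wav k F x - c‖ + ‖wav k F y - c‖ := by
          gcongr
          exact norm_add_le _ _
      _ < 3 * ‖c‖ / 8 := by
          rw [norm_neg]
          linarith
  have h8 : 7 * ‖c‖ / 8 ≤ ‖wav k F y‖ := by
    have h1 : ‖c‖ ≤ ‖wav k F y‖ + ‖wav k F y - c‖ := by
      calc ‖c‖ = ‖wav k F y - (wav k F y - c)‖ := by congr 1; ring
        _ ≤ _ := norm_sub_le _ _
    linarith
  have h9 : ‖θ - 1‖ < 3 / 7 := by
    by_contra hcon
    push Not at hcon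
    have := mul_le_mul hcon h8 (by positivity) (norm_nonneg _)
    linarith
  have h10 : ‖θ - 1‖ = 2 * |Real.sin (Real.pi * z)| := by
    rw [hθ, Complex.norm_exp_I_mul_ofReal_sub_one, Real.norm_eq_abs, abs_mul,
      abs_of_pos (by norm_num : (0 : ℝ) < 2)]
    congr 3
    ring
  have h11 : 2 * |z| ≤ |Real.sin (Real.pi * z)| := by
    have h1 : |Real.pi * z| ≤ Real.pi / 2 := by
      rw [abs_mul, abs_of_pos Real.pi_pos]
      have := mul_le_mul_of_nonneg_left hz2 Real.pi_pos.le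
      linarith
    have h2 := Real.mul_abs_le_abs_sin h1
    rw [abs_mul, abs_of_pos Real.pi_pos] at h2
    have h3 : 2 / Real.pi * (Real.pi * |z|) = 2 * |z| := by
      field_simp
    rw [h3] at h2
    exact h2
  have h12 : |z| ≤ 1 / 8 := by
    rw [h10] at h9
    linarith
  rw [hzt] at h12
  rw [le_div_iff₀ (by positivity)]
  calc |t| * (2 * k * 4 ^ (j + 1)) = 8 * (k * 4 ^ j * |t|) := by ring
    _ ≤ 8 * (1 / 8) := by linarith
    _ = 1 := by norm_num

end Pool.Agent.Helper3.MX
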